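import Mathlib

set_option autoImplicit false

open Filter Topology Set TopologicalSpace

namespace H490LC

universe u v

/-- `C_p(X)`: the real continuous functions on `X` with the topology of pointwise convergence. -/
def Cp (X : Type u) [TopologicalSpace X] : Submodule ℝ (X → ℝ) where
  carrier := {f | Continuous f}
  add_mem' := fun hf hg => Continuous.add hf hg
  zero_mem' := continuous_zero
  smul_mem' := fun c _ hf => Continuous.const_smul hf c

section Basic

variable {X : Type u} [TopologicalSpace X]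

def ev (x : X) : Cp X →ₗ[ℝ] ℝ where
  toFun f := (f : X → ℝ) x
  map_add' _ _ := rfl
  map_smul' _ _ := rfl

lemma continuous_ev (x : X) : Continuous (fun f : Cp X => (f : X → ℝ) x) :=
  (continuous_apply x).comp continuous_subtype_val

lemma topology_eq : (inferInstance : TopologicalSpace (Cp X)) =
    ⨅ x : X, induced (ev x) inferInstance := by
  change induced Subtype.val (⨅ x : X, induced (fun f : X → ℝ => f x) inferInstance) = _
  rw [induced_iInf]
  congr 1
  ext1 x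
  rw [induced_compose]
  rfl

/-- A continuous linear functional on `C_p(X)` is a finite linear combination of evaluations. -/
lemma functional_finsupp (φ : Cp X →ₗ[ℝ] ℝ) (hφ : Continuous φ) :
    ∃ α : X →₀ ℝ, ∀ f : Cp X, φ f = ∑ y ∈ α.support, α y * (f : X → ℝ) y := by
  have h1 : φ ∈ Submodule.span ℝ (range (ev : X → Cp X →ₗ[ℝ] ℝ)) := by
    rw [LinearMap.mem_span_iff_continuous, ← topology_eq]
    exact hφ
  rw [Finsupp.mem_span_range_iff_exists_finsupp] at h1
  obtain ⟨c, hc⟩ := h1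
  refine ⟨c, fun f => ?_⟩
  rw [← hc, Finsupp.sum, LinearMap.sum_apply]
  rfl

end Basic

section Sep

variable {Y : Type v} [TopologicalSpace Y] [T35Space Y]

lemma exists_bump (y : Y) (U : Set Y) (hU : IsOpen U) (hy : y ∈ U) :
    ∃ g : Y → ℝ, Continuous g ∧ (∀ z, 0 ≤ g z) ∧ (∀ z, g z ≤ 1) ∧ g y = 1 ∧ ∀ z, z ∉ U → g z = 0 := by
  obtain ⟨f, hf, h0, h1⟩ := CompletelyRegularSpace.completely_regular y Uᶜ hU.isClosed_compl
    (by simpa using hy)
  refine ⟨fun z => 1 - (f z : ℝ), by fun_prop, fun z => ?_, fun z => ?_, ?_, fun z hz => ?_⟩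
  · have := (f z).2.2
    linarith
  · have := (f z).2.1
    linarith
  · simp [h0]
  · have := h1 hz
    simp only [Pi.one_apply] at this
    simp [this]

/-- Separating a compact set from an ultrafilter without limit. -/
lemma exists_sep (S : Set Y) (hS : IsCompact S) (𝒰 : Ultrafilter Y)
    (hU : ∀ y ∈ S, ¬ (𝒰 : Filter Y) ≤ 𝓝 y) :
    ∃ g : Y → ℝ, Continuous g ∧ (∀ z, 0 ≤ g z) ∧ (∀ z, g z ≤ 1) ∧ (∀ z ∈ S, g z = 0) ∧
      ∀ᶠ z in (𝒰 : Filter Y), g z = 1 := by
  refine hS.induction_on (p := fun s => ∃ g : Y → ℝ, Continuous g ∧ (∀ z, 0 ≤ g z) ∧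
    (∀ z, g z ≤ 1) ∧ (∀ z ∈ s, g z = 0) ∧ ∀ᶠ z in (𝒰 : Filter Y), g z = 1) ?_ ?_ ?_ ?_
  · exact ⟨fun _ => 1, continuous_const, fun _ => zero_le_one, fun _ => le_rfl, by simp, by simp⟩
  · rintro s t hst ⟨g, h1, h2, h3, h4, h5⟩
    exact ⟨g, h1, h2, h3, fun z hz => h4 z (hst hz), h5⟩
  · rintro s t ⟨g, h1, h2, h3, h4, h5⟩ ⟨g', h1', h2', h3', h4', h5'⟩
    refine ⟨fun z => g z * g' z, h1.mul h1', fun z => mul_nonneg (h2 z) (h2' z),
      fun z => mul_le_one₀ (h3 z) (h2' z) (h3' z), ?_, ?_⟩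
    · rintro z (hz | hz)
      · simp [h4 z hz]
      · simp [h4' z hz]
    · filter_upwards [h5, h5'] with z hz hz'
      simp [hz, hz']
  · intro y hy
    have h := hU y hy
    rw [Filter.not_le] at h
    obtain ⟨V, hV, hVU⟩ := h
    obtain ⟨W, hWV, hWo, hyW⟩ := mem_nhds_iff.1 hV
    have hWU : W ∉ 𝒰 := fun hW => hVU (Filter.mem_of_superset hW hWV)
    have hWc : Wᶜ ∈ 𝒰 := Ultrafilter.compl_mem_iff_notMem.2 hWU
    obtain ⟨g, h1, h2, h3, h4, h5⟩ := exists_bump y W hWo hyW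
    refine ⟨{z | 1 / 2 < g z}, mem_nhdsWithin_of_mem_nhds
      ((isOpen_lt continuous_const h1).mem_nhds (by simp [h4]; norm_num)), ?_⟩
    refine ⟨fun z => max 0 (1 - 2 * g z), by fun_prop, fun z => le_max_left _ _, fun z => ?_,
      fun z hz => ?_, ?_⟩
    · refine max_le zero_le_one ?_
      have := h2 z
      linarith
    · simp only [mem_ofPred_eq] at hz
      apply max_eq_left
      linarith
    · filter_upwards [hWc] with z hz
      rw [h5 z hz]
      simp

end Sep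

section Supp

variable {X : Type u} {Y : Type v} [TopologicalSpace X] [TopologicalSpace Y] [T35Space Y]
variable (M : Cp Y → Cp X) (α : X → Y →₀ ℝ)

/-- the family `α` represents the operator `M`. -/
def Rep : Prop :=
  ∀ (x : X) (g : Cp Y), (M g : X → ℝ) x = ∑ y ∈ (α x).support, α x y * (g : Y → ℝ) y

variable {M α}

lemma lsc (hα : Rep M α) {x₀ : X} {y₀ : Y} (hy : y₀ ∈ (α x₀).support) {V : Set Y} (hV : IsOpen V)
    (hyV : y₀ ∈ V) : ∀ᶠ x in 𝓝 x₀, ∃ y ∈ (α x).support, y ∈ V := by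
  classical
  let F : Finset Y := (α x₀).support.erase y₀
  have hUo : IsOpen (V ∩ (↑F : Set Y)ᶜ) := hV.inter F.finite_toSet.isClosed.isOpen_compl
  have hyU : y₀ ∈ V ∩ (↑F : Set Y)ᶜ := ⟨hyV, by simp [F]⟩
  obtain ⟨g, h1, -, -, h4, h5⟩ := exists_bump y₀ _ hUo hyU
  let G : Cp Y := ⟨g, h1⟩
  have hMG : Continuous (M G : X → ℝ) := (M G).2
  have hne : (M G : X → ℝ) x₀ ≠ 0 := by
    rw [hα, Finset.sum_eq_single_of_mem y₀ hy]
    · change α x₀ y₀ * g y₀ ≠ 0
      rw [h4, mul_one]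
      exact Finsupp.mem_support_iff.1 hy
    · intro b hb hby
      change α x₀ b * g b = 0
      rw [h5 b, mul_zero]
      rintro ⟨-, hb2⟩
      exact hb2 (by simp only [F, Finset.coe_erase]; exact ⟨hb, hby⟩)
  filter_upwards [hMG.continuousAt.eventually_ne hne] with x hx
  rw [hα] at hx
  obtain ⟨y, hy1, hy2⟩ := Finset.exists_ne_zero_of_sum_ne_zero hx
  refine ⟨y, hy1, ?_⟩
  by_contra hyV'
  apply hy2
  change α x y * g y = 0
  rw [h5 y (fun h => hyV' h.1), mul_zero]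

/-- Near `x₀` the support meets a system of disjoint neighbourhoods of the support at `x₀`. -/
lemma exists_nbhds (hα : Rep M α) (x₀ : X) :
    ∃ U : Y → Set Y, (∀ y, y ∈ U y ∧ IsOpen (U y)) ∧
      (((α x₀).support : Set Y).PairwiseDisjoint U) ∧
      ∀ᶠ x in 𝓝 x₀, ∀ y ∈ (α x₀).support, ∃ y' ∈ (α x).support, y' ∈ U y := by
  obtain ⟨U, hU1, hU2⟩ := ((α x₀).support.finite_toSet).t2_separation
  refine ⟨U, hU1, hU2, ?_⟩
  rw [Filter.eventually_all_finset]
  intro y hy
  exact lsc hα hy (hU1 y).2 (hU1 y).1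

lemma card_le_of_meets {F F' : Finset Y} {U : Y → Set Y} (hU : (F : Set Y).PairwiseDisjoint U)
    (h : ∀ y ∈ F, ∃ y' ∈ F', y' ∈ U y) : ∃ f : Y → Y, (∀ y ∈ F, f y ∈ F' ∧ f y ∈ U y) ∧
      Set.InjOn f F := by
  classical
  choose! f hf using h
  refine ⟨f, hf, ?_⟩
  intro a ha b hb hab
  by_contra hne
  have := hU ha hb hne
  exact Set.disjoint_left.1 this (hf a ha).2 (hab ▸ (hf b hb).2)

lemma isClosed_card_le (hα : Rep M α) (n : ℕ) : IsClosed {x | (α x).support.card ≤ n} := by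
  rw [← isOpen_compl_iff, isOpen_iff_mem_nhds]
  intro x₀ hx₀
  simp only [mem_compl_iff, mem_ofPred_eq, not_le] at hx₀
  obtain ⟨U, -, hU2, hU3⟩ := exists_nbhds hα x₀
  filter_upwards [hU3] with x hx
  simp only [mem_compl_iff, mem_ofPred_eq, not_le]
  obtain ⟨f, hf, hinj⟩ := card_le_of_meets hU2 hx
  exact hx₀.trans_le (Finset.card_le_card_of_injOn f (fun y hy => (hf y hy).1) hinj)

/-- On a compact set on which the size of the support is constant, the union of the supports is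
compact. -/
lemma isCompact_supp (hα : Rep M α) (K : Set X) (hK : IsCompact K) (n : ℕ)
    (hn : ∀ x ∈ K, (α x).support.card = n) :
    IsCompact {y : Y | ∃ x ∈ K, y ∈ (α x).support} := by
  classical
  rw [isCompact_iff_ultrafilter_le_nhds]
  intro 𝒱 h𝒱
  rw [Filter.le_principal_iff] at h𝒱
  have hch : ∀ y : Y, ∃ x : X, y ∈ {y : Y | ∃ x ∈ K, y ∈ (α x).support} →
      x ∈ K ∧ y ∈ (α x).support := by
    intro y
    by_cases hy : y ∈ {y : Y | ∃ x ∈ K, y ∈ (α x).support}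
    · obtain ⟨x, hx⟩ := hy
      exact ⟨x, fun _ => hx⟩
    · have : Nonempty X := by
        obtain ⟨z, hz⟩ := Ultrafilter.nonempty_of_mem h𝒱
        obtain ⟨x, -⟩ := hz
        exact ⟨x⟩
      exact ⟨this.some, fun h => absurd h hy⟩
  choose ξ hξ using hch
  have hmap : ((𝒱.map ξ : Ultrafilter X) : Filter X) ≤ 𝓟 K := by
    rw [Filter.le_principal_iff]
    change ξ ⁻¹' K ∈ 𝒱
    filter_upwards [h𝒱] with y hy using (hξ y hy).1
  obtain ⟨x₀, hx₀, hlim⟩ := isCompact_iff_ultrafilter_le_nhds.1 hK _ hmap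
  obtain ⟨U, hU1, hU2, hU3⟩ := exists_nbhds hα x₀
  have hlim' : Tendsto ξ 𝒱 (𝓝 x₀) := hlim
  have hev := hlim'.eventually hU3
  -- every point lies in one of the neighbourhoods
  have hev2 : ∀ᶠ y in (𝒱 : Filter Y), ∃ z ∈ (α x₀).support, y ∈ U z := by
    filter_upwards [hev, h𝒱] with y hy1 hy2
    obtain ⟨f, hf, hinj⟩ := card_le_of_meets hU2 hy1
    obtain ⟨hk, hys⟩ := hξ y hy2
    have himg : (α x₀).support.image f = (α (ξ y)).support := by
      apply Finset.eq_of_subset_of_card_le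
      · intro w hw
        obtain ⟨z, hz, rfl⟩ := Finset.mem_image.1 hw
        exact (hf z hz).1
      · rw [Finset.card_image_of_injOn hinj, hn _ hk, hn _ hx₀]
    rw [← himg, Finset.mem_image] at hys
    obtain ⟨z, hz, hzy⟩ := hys
    exact ⟨z, hz, hzy ▸ (hf z hz).2⟩
  have hex : ∃ z ∈ (α x₀).support, ∀ᶠ y in (𝒱 : Filter Y), y ∈ U z := by
    by_contra hcon
    push Not at hcon
    have h1 : ∀ z ∈ (α x₀).support, ∀ᶠ y in (𝒱 : Filter Y), y ∉ U z := by
      intro z hz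
      exact hcon z hz
    rw [← Filter.eventually_all_finset] at h1
    obtain ⟨y, hy1, hy2⟩ := (h1.and hev2).exists
    obtain ⟨z, hz, hyz⟩ := hy2
    exact hy1 z hz hyz
  obtain ⟨z, hz, hzU⟩ := hex
  refine ⟨z, ⟨x₀, hx₀, hz⟩, ?_⟩
  intro V hV
  obtain ⟨V', hV'V, hV'o, hzV'⟩ := mem_nhds_iff.1 hV
  have h3 := hlim'.eventually (lsc hα hz (hV'o.inter (hU1 z).2) ⟨hzV', (hU1 z).1⟩)
  filter_upwards [hev, h𝒱, hzU, h3] with y hy1 hy2 hy3 hy4
  obtain ⟨w, hw, hwV, hwU⟩ := hy4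
  obtain ⟨hk, hys⟩ := hξ y hy2
  -- `w` and `y` both lie in `U z` and in the support, so they agree
  obtain ⟨f, hf, hinj⟩ := card_le_of_meets hU2 hy1
  have himg : (α x₀).support.image f = (α (ξ y)).support := by
    apply Finset.eq_of_subset_of_card_le
    · intro w hw
      obtain ⟨z, hz, rfl⟩ := Finset.mem_image.1 hw
      exact (hf z hz).1
    · rw [Finset.card_image_of_injOn hinj, hn _ hk, hn _ hx₀]
  have key : ∀ v ∈ (α (ξ y)).support, v ∈ U z → v = f z := by
    intro v hv hvU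
    rw [← himg, Finset.mem_image] at hv
    obtain ⟨z', hz', rfl⟩ := hv
    by_cases hzz : z' = z
    · rw [hzz]
    · exact absurd hvU (Set.disjoint_left.1 (hU2 hz' hz hzz) (hf z' hz').2)
  have : y = w := (key y hys hy3).trans (key w hw hwU).symm
  rw [this]
  exact hV'V hwV

end Supp

end H490LC
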