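import Pool.Agent.H490R3.LC.Meas

set_option autoImplicit false

open Filter Topology Set
open scoped BoundedContinuousFunction

namespace H490LC

universe u v

section Bound

variable {X : Type u} {Y : Type v} [TopologicalSpace X] [TopologicalSpace Y]
variable {M : Cp Y →ₗ[ℝ] Cp X} {α : X → Y →₀ ℝ}

/-- Uniform boundedness of the operator, with respect to the sup norm, on pointwise bounded sets. -/
lemma unif_bound' (hα : Rep (fun g => M g) α) (K : Set X)
    (hK : ∀ g : Cp Y, ∃ C, ∀ x ∈ K, |(M g : X → ℝ) x| ≤ C) :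
    ∃ B : ℝ, 0 ≤ B ∧ ∀ x ∈ K, ∀ (c : ℝ) (g : Cp Y), 0 ≤ c → (∀ y, |(g : Y → ℝ) y| ≤ c) →
      |(M g : X → ℝ) x| ≤ B * c := by
  let T : K → (Y →ᵇ ℝ) →L[ℝ] ℝ := fun x =>
    LinearMap.mkContinuous
      { toFun := fun g => (M ⟨(g : Y → ℝ), g.continuous⟩ : X → ℝ) x
        map_add' := by
          intro a b
          have : (⟨((a + b : Y →ᵇ ℝ) : Y → ℝ), (a + b).continuous⟩ : Cp Y) =
            ⟨(a : Y → ℝ), a.continuous⟩ + ⟨(b : Y → ℝ), b.continuous⟩ := rfl
          rw [this, map_add]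
          rfl
        map_smul' := by
          intro c a
          have : (⟨((c • a : Y →ᵇ ℝ) : Y → ℝ), (c • a).continuous⟩ : Cp Y) =
            c • ⟨(a : Y → ℝ), a.continuous⟩ := rfl
          rw [this, map_smul]
          rfl }
      (∑ y ∈ (α x).support, |α x y|) (by
        intro g
        change |(M ⟨(g : Y → ℝ), g.continuous⟩ : X → ℝ) x| ≤ _
        have h := hα x ⟨(g : Y → ℝ), g.continuous⟩
        simp only at h
        rw [h, Finset.sum_mul]
        refine (Finset.abs_sum_le_sum_abs _ _).trans (Finset.sum_le_sum fun y _ => ?_)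
        rw [abs_mul]
        exact mul_le_mul_of_nonneg_left (g.norm_coe_le_norm y) (abs_nonneg _))
  have hpt : ∀ g : Y →ᵇ ℝ, ∃ C, ∀ x : K, ‖T x g‖ ≤ C := by
    intro g
    obtain ⟨C, hC⟩ := hK ⟨(g : Y → ℝ), g.continuous⟩
    exact ⟨C, fun x => hC x x.2⟩
  obtain ⟨B, hB⟩ := banach_steinhaus hpt
  refine ⟨|B|, abs_nonneg _, ?_⟩
  intro x hx c g hc hg
  let G : Y →ᵇ ℝ := BoundedContinuousFunction.ofNormedAddCommGroup (g : Y → ℝ) g.2 c hg
  have h1 : ‖G‖ ≤ c := BoundedContinuousFunction.norm_ofNormedAddCommGroup_le _ hc hg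
  have h2 : ‖T ⟨x, hx⟩ G‖ ≤ |B| * c := by
    refine ((T ⟨x, hx⟩).le_opNorm G).trans ?_
    exact mul_le_mul ((hB ⟨x, hx⟩).trans (le_abs_self B)) h1 (norm_nonneg _) (abs_nonneg _)
  exact h2

/-- On compact sets the operator is uniformly bounded with respect to the sup norm. -/
lemma unif_bound (hα : Rep (fun g => M g) α) (K : Set X) (hK : IsCompact K) :
    ∃ B : ℝ, 0 ≤ B ∧ ∀ x ∈ K, ∀ (c : ℝ) (g : Cp Y), 0 ≤ c → (∀ y, |(g : Y → ℝ) y| ≤ c) →
      |(M g : X → ℝ) x| ≤ B * c :=
  unif_bound' hα K fun g => by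
    have hc : Continuous (M g : X → ℝ) := (M g).2
    exact hK.exists_bound_of_continuousOn hc.continuousOn

end Bound

/-- A continuous function dominates any sequence along a sequence tending to infinity. -/
lemma exists_dom (s : ℕ → ℝ) (hs : Tendsto s atTop atTop) (c : ℕ → ℝ) :
    ∃ θ : C(ℝ, ℝ), ∀ n, c n ≤ θ (s n) := by
  have h := exists_continuous_forall_mem_convex_of_local_const
    (t := fun x : ℝ => {v : ℝ | ∀ n, s n ≤ x → c n ≤ v}) (fun x => by
      intro a ha b hb p q hp hq hpq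
      intro n hn
      have h1 := ha n hn
      have h2 := hb n hn
      have : c n = p * c n + q * c n := by rw [← add_mul, hpq, one_mul]
      rw [this]
      exact add_le_add (mul_le_mul_of_nonneg_left h1 hp) (mul_le_mul_of_nonneg_left h2 hq))
    (fun x => by
      obtain ⟨n₀, hn₀⟩ := (hs.eventually_gt_atTop (x + 1)).exists_forall_of_atTop
      refine ⟨∑ n ∈ Finset.range n₀, |c n|, ?_⟩
      filter_upwards [Iio_mem_nhds (show x < x + 1 by linarith)] with y hy
      intro n hn
      have hlt : n < n₀ := by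
        by_contra hcon
        have := hn₀ n (not_lt.1 hcon)
        have hy' : y < x + 1 := hy
        linarith
      exact (le_abs_self _).trans
        (Finset.single_le_sum (f := fun n => |c n|) (fun _ _ => abs_nonneg _)
          (Finset.mem_range.2 hlt)))
  obtain ⟨θ, hθ⟩ := h
  exact ⟨θ, fun n => hθ (s n) n le_rfl⟩

section Main

variable {X : Type u} {Y : Type v} [TopologicalSpace X] [TopologicalSpace Y]

/-- If `X` is compact and `C_p(X)` maps onto `C_p(Y)`, then `Y` is pseudocompact. -/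
lemma bounded_of_surj [CompactSpace X] (L : Cp X →ₗ[ℝ] Cp Y) (hL : Function.Surjective L)
    {β : Y → X →₀ ℝ} (hβ : Rep (fun f => L f) β) (g : Cp Y) : ∃ C, ∀ y, |(g : Y → ℝ) y| ≤ C := by
  by_contra hcon
  push Not at hcon
  choose y hy using fun n : ℕ => hcon n
  have hs : Tendsto (fun n => |(g : Y → ℝ) (y n)|) atTop atTop :=
    tendsto_atTop_mono (fun n => (hy n).le) tendsto_natCast_atTop_atTop
  let W : ℕ → ℝ := fun n => ∑ x ∈ (β (y n)).support, |β (y n) x|
  have hW : ∀ n, 0 ≤ W n := fun n => Finset.sum_nonneg fun _ _ => abs_nonneg _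
  obtain ⟨θ, hθ⟩ := exists_dom _ hs (fun n => n * (W n + 1))
  have hg : Continuous (g : Y → ℝ) := g.2
  obtain ⟨f, hf⟩ := hL ⟨fun z => θ |(g : Y → ℝ) z|, θ.continuous.comp hg.abs⟩
  have hfc : Continuous (f : X → ℝ) := f.2
  obtain ⟨C, hC⟩ := isCompact_univ.exists_bound_of_continuousOn hfc.continuousOn
  have hkey : ∀ n : ℕ, (n : ℝ) ≤ |C| := by
    intro n
    have h1 : (L f : Y → ℝ) (y n) = θ |(g : Y → ℝ) (y n)| := by rw [hf]
    have h2 := hβ (y n) f
    simp only at h2
    have h3 : |(L f : Y → ℝ) (y n)| ≤ W n * |C| := by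
      rw [h2, Finset.sum_mul]
      refine (Finset.abs_sum_le_sum_abs _ _).trans (Finset.sum_le_sum fun x _ => ?_)
      rw [abs_mul]
      exact mul_le_mul_of_nonneg_left ((hC x (mem_univ x)).trans (le_abs_self C)) (abs_nonneg _)
    have h4 : n * (W n + 1) ≤ (W n + 1) * |C| := by
      calc n * (W n + 1) ≤ θ |(g : Y → ℝ) (y n)| := hθ n
        _ ≤ |(L f : Y → ℝ) (y n)| := by rw [h1]; exact le_abs_self _
        _ ≤ W n * |C| := h3
        _ ≤ (W n + 1) * |C| := mul_le_mul_of_nonneg_right (by linarith) (abs_nonneg _)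
    have h5 : 0 < W n + 1 := by linarith [hW n]
    nlinarith
  obtain ⟨n, hn⟩ := exists_nat_gt |C|
  exact absurd (hkey n) (not_le.2 hn)

/-- **Compact case.** -/
theorem compact_case [CompactSpace X] [T2Space X] [T35Space Y]
    (L : Cp X →ₗ[ℝ] Cp Y) (hL : Continuous L) (hLb : Function.Bijective L)
    (M : Cp Y →ₗ[ℝ] Cp X) (hM : Continuous M) (hMb : Function.Bijective M) :
    CompactSpace Y := by
  classical
  have hβ' : ∀ y : Y, ∃ β : X →₀ ℝ, ∀ f : Cp X,
      (L f : Y → ℝ) y = ∑ x ∈ β.support, β x * (f : X → ℝ) x := fun y =>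
    functional_finsupp ((ev y).comp L) ((continuous_ev y).comp hL)
  choose β hβ using hβ'
  have hα' : ∀ x : X, ∃ α : Y →₀ ℝ, ∀ g : Cp Y,
      (M g : X → ℝ) x = ∑ y ∈ α.support, α y * (g : Y → ℝ) y := fun x =>
    functional_finsupp ((ev x).comp M) ((continuous_ev x).comp hM)
  choose α hα using hα'
  have hpc : ∀ g : Cp Y, ∃ C, ∀ y, |(g : Y → ℝ) y| ≤ C := bounded_of_surj L hLb.2 hβ
  obtain ⟨B, hB0, hB⟩ := unif_bound (M := M) hα univ isCompact_univ
  obtain ⟨A, hA0, hA⟩ := unif_bound' (M := L) hβ univ (fun f => by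
    obtain ⟨C, hC⟩ := hpc (L f)
    exact ⟨C, fun y _ => hC y⟩)
  let ofC : C(X, ℝ) → Cp X := fun f => ⟨f, f.continuous⟩
  let toC : Cp X → C(X, ℝ) := fun f => ⟨f, f.2⟩
  have hLn : ∀ (f : C(X, ℝ)) (y : Y), |(L (ofC f) : Y → ℝ) y| ≤ A * ‖f‖ := fun f y =>
    hA y (mem_univ y) ‖f‖ (ofC f) (norm_nonneg _) (fun x => f.norm_coe_le_norm x)
  let N : C(X, ℝ) →L[ℝ] C(X, ℝ) := LinearMap.mkContinuous
    { toFun := fun f => toC (M (L (ofC f)))
      map_add' := by
        intro a b
        have : ofC (a + b) = ofC a + ofC b := rfl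
        rw [this, map_add, map_add]
        rfl
      map_smul' := by
        intro c a
        have : ofC (c • a) = c • ofC a := rfl
        rw [this, map_smul, map_smul]
        rfl } (B * A) (by
      intro f
      rw [ContinuousMap.norm_le _ (by positivity)]
      intro x
      rw [mul_assoc]
      exact hB x (mem_univ x) (A * ‖f‖) (L (ofC f)) (by positivity) (hLn f))
  have hN : ∀ f, N f = toC (M (L (ofC f))) := fun f => rfl
  have hinj : Function.Injective N := by
    intro a b hab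
    rw [hN, hN] at hab
    have h1 : M (L (ofC a)) = M (L (ofC b)) := by
      apply Subtype.ext
      exact congrArg (fun F : C(X, ℝ) => (F : X → ℝ)) hab
    have h2 := hLb.1 (hMb.1 h1)
    ext x
    exact congrFun (congrArg Subtype.val h2) x
  have hsurj : Function.Surjective N := by
    intro h
    obtain ⟨g, hg⟩ := hMb.2 (ofC h)
    obtain ⟨f, hf⟩ := hLb.2 g
    refine ⟨toC f, ?_⟩
    have h1 : ofC (toC f) = f := rfl
    rw [hN, h1, hf, hg]
    rfl
  let e : C(X, ℝ) ≃L[ℝ] C(X, ℝ) := ContinuousLinearEquiv.ofBijective N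
    (LinearMap.ker_eq_bot.2 hinj) (LinearMap.range_eq_top.2 hsurj)
  have he : ∀ f, e f = N f := fun f => rfl
  rw [← isCompact_univ_iff, isCompact_iff_ultrafilter_le_nhds]
  intro 𝒰 _
  have hlim : ∀ g : Cp Y, ∃ l : ℝ, Tendsto (g : Y → ℝ) 𝒰 (𝓝 l) := by
    intro g
    obtain ⟨C, hC⟩ := hpc g
    obtain ⟨l, -, hl⟩ := isCompact_iff_ultrafilter_le_nhds.1 (isCompact_Icc (a := -C) (b := C))
      (𝒰.map (g : Y → ℝ)) (by
        rw [Filter.le_principal_iff]
        change (g : Y → ℝ) ⁻¹' Icc (-C) C ∈ 𝒰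
        exact Filter.univ_mem' (fun y => abs_le.1 (hC y)))
    exact ⟨l, hl⟩
  choose lam hlam using hlim
  let Ψ : C(X, ℝ) →L[ℝ] ℝ := LinearMap.mkContinuous
    { toFun := fun f => lam (L (ofC f))
      map_add' := by
        intro a b
        refine tendsto_nhds_unique (hlam (L (ofC (a + b)))) ?_
        have : ofC (a + b) = ofC a + ofC b := rfl
        rw [this, map_add]
        exact (hlam (L (ofC a))).add (hlam (L (ofC b)))
      map_smul' := by
        intro c a
        refine tendsto_nhds_unique (hlam (L (ofC (c • a)))) ?_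
        have : ofC (c • a) = c • ofC a := rfl
        rw [this, map_smul]
        exact (hlam (L (ofC a))).const_mul c } A (by
      intro f
      exact le_of_tendsto (hlam (L (ofC f))).abs (Filter.Eventually.of_forall (hLn f)))
  have hfin := core (M := fun g => M g) hα B (fun x g hg => by
    have := hB x (mem_univ x) 1 g zero_le_one hg
    rwa [mul_one] at this) 𝒰 (Ψ.comp (e.symm : C(X, ℝ) →L[ℝ] C(X, ℝ))) (by
    intro g hg
    obtain ⟨f, hf⟩ := hLb.2 g
    have h1 : (⟨(M g : X → ℝ), (M g).2⟩ : C(X, ℝ)) = e (toC f) := by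
      rw [he, hN]
      have h2 : ofC (toC f) = f := rfl
      rw [h2, hf]
    simp only [ContinuousLinearMap.comp_apply]
    rw [h1]
    change Ψ (e.symm (e (toC f))) = 1
    rw [ContinuousLinearEquiv.symm_apply_apply]
    change lam (L (ofC (toC f))) = 1
    refine tendsto_nhds_unique (hlam _) ?_
    have h2 : ofC (toC f) = f := rfl
    rw [h2, hf]
    exact tendsto_const_nhds.congr' (hg.mono fun y hy => hy.symm))
  obtain ⟨y, hy⟩ := hfin
  exact ⟨y, mem_univ y, hy⟩

end Main

end H490LC
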