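import Mathlib
import Pool.Agent.H490R3.LC.Basic

set_option autoImplicit false

open Filter Topology Set
open scoped BoundedContinuousFunction

namespace H490LC

universe u v

section Fre

variable {X : Type u} [TopologicalSpace X] (K : ℕ → Set X)

/-- Approximation step obtained from the Baire category theorem. -/
lemma approx_step (T : (X →ᵇ ℝ) →ₗ[ℝ] Cp X) (A : Set X) (hA : IsCompact A) :
    ∃ C : ℝ, 0 < C ∧ ∀ (b : X →ᵇ ℝ) (δ : ℝ), 0 < δ → ∃ d : X →ᵇ ℝ, ‖b - d‖ < δ ∧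
      ∀ x ∈ A, |(T d : X → ℝ) x| ≤ C * ‖b‖ := by
  let F : ℕ → Set (X →ᵇ ℝ) := fun j => closure {b | ∀ x ∈ A, |(T b : X → ℝ) x| ≤ j}
  have hU : ⋃ j, F j = univ := by
    rw [eq_univ_iff_forall]
    intro b
    have hc : Continuous (T b : X → ℝ) := (T b).2
    obtain ⟨C, hC⟩ := hA.exists_bound_of_continuousOn hc.continuousOn
    obtain ⟨j, hj⟩ := exists_nat_ge C
    exact mem_iUnion.2 ⟨j, subset_closure (fun x hx => (hC x hx).trans hj)⟩
  obtain ⟨j, a, ha⟩ := nonempty_interior_of_iUnion_of_closed (fun j => isClosed_closure) hU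
  obtain ⟨ε, hε, hball⟩ := Metric.mem_nhds_iff.1 (mem_interior_iff_mem_nhds.1 ha)
  refine ⟨4 * (j + 1) / ε, by positivity, ?_⟩
  intro b δ hδ
  by_cases hb : b = 0
  · refine ⟨0, by simpa [hb] using hδ, ?_⟩
    intro x hx
    rw [map_zero]
    change |(0 : ℝ)| ≤ _
    rw [abs_zero]
    positivity
  have hbn : 0 < ‖b‖ := norm_pos_iff.2 hb
  let s : ℝ := ε / (2 * ‖b‖)
  have hs : 0 < s := by positivity
  have hsb : ‖s • b‖ = ε / 2 := by
    rw [norm_smul, Real.norm_of_nonneg hs.le]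
    simp only [s]
    field_simp
  have h1 : a + s • b ∈ F j := hball (by
    rw [Metric.mem_ball, dist_eq_norm, add_sub_cancel_left, hsb]
    linarith)
  have h2 : a ∈ F j := hball (Metric.mem_ball_self hε)
  have hδ' : 0 < s * δ / 2 := by positivity
  obtain ⟨u, hu, hu'⟩ := Metric.mem_closure_iff.1 h1 _ hδ'
  obtain ⟨v, hv, hv'⟩ := Metric.mem_closure_iff.1 h2 _ hδ'
  refine ⟨s⁻¹ • (u - v), ?_, ?_⟩
  · have e1 : b - s⁻¹ • (u - v) = s⁻¹ • ((a + s • b - u) - (a - v)) := by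
      ext x
      simp only [BoundedContinuousFunction.coe_sub, BoundedContinuousFunction.coe_smul,
        BoundedContinuousFunction.coe_add, Pi.sub_apply, Pi.add_apply, smul_eq_mul]
      field_simp
      ring
    rw [e1, norm_smul, Real.norm_of_nonneg (inv_nonneg.2 hs.le)]
    have e2 : ‖(a + s • b - u) - (a - v)‖ < s * δ := by
      calc _ ≤ ‖a + s • b - u‖ + ‖a - v‖ := norm_sub_le _ _
        _ < s * δ / 2 + s * δ / 2 := by
            rw [dist_eq_norm] at hu' hv'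
            exact add_lt_add hu' hv'
        _ = s * δ := by ring
    calc s⁻¹ * _ < s⁻¹ * (s * δ) := mul_lt_mul_of_pos_left e2 (inv_pos.2 hs)
      _ = δ := by rw [← mul_assoc, inv_mul_cancel₀ hs.ne', one_mul]
  · intro x hx
    rw [map_smul, map_sub]
    change |s⁻¹ * ((T u : X → ℝ) x - (T v : X → ℝ) x)| ≤ _
    rw [abs_mul, abs_of_pos (inv_pos.2 hs)]
    have h3 : |(T u : X → ℝ) x - (T v : X → ℝ) x| ≤ 2 * (j + 1) := by
      have h4 := hu x hx
      have h5 := hv x hx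
      calc _ ≤ |(T u : X → ℝ) x| + |(T v : X → ℝ) x| := abs_sub _ _
        _ ≤ 2 * (j + 1) := by linarith
    calc s⁻¹ * _ ≤ s⁻¹ * (2 * (j + 1)) := mul_le_mul_of_nonneg_left h3 (inv_pos.2 hs).le
      _ = 4 * (j + 1) / ε * ‖b‖ := by
          simp only [s]
          field_simp
          ring

/-- Closed graph theorem for a Banach source and the Fréchet space `C(X)`. -/
lemma closed_graph (hK : ∀ n, IsCompact (K n)) (hmono : Monotone K) (hcov : ∀ x, ∃ n, x ∈ K n)
    (hcont : ∀ f : X → ℝ, (∀ n, ContinuousOn f (K n)) → Continuous f)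
    (T : (X →ᵇ ℝ) →ₗ[ℝ] Cp X)
    (hT : ∀ (b : ℕ → X →ᵇ ℝ) (b' : X →ᵇ ℝ) (g : Cp X), Tendsto b atTop (𝓝 b') →
      (∀ x, Tendsto (fun k => (T (b k) : X → ℝ) x) atTop (𝓝 ((g : X → ℝ) x))) → T b' = g)
    (n : ℕ) : ∃ C : ℝ, 0 ≤ C ∧ ∀ (b : X →ᵇ ℝ), ∀ x ∈ K n, |(T b : X → ℝ) x| ≤ C * ‖b‖ := by
  choose C hC hap using fun m => approx_step T (K m) (hK m)
  refine ⟨C n + 2, by linarith [hC n], ?_⟩
  intro b
  by_cases hb : b = 0
  · intro x hx
    rw [hb, map_zero, norm_zero, mul_zero]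
    change |(0 : ℝ)| ≤ 0
    rw [abs_zero]
  have hbn : 0 < ‖b‖ := norm_pos_iff.2 hb
  choose D hD1 hD2 using hap
  -- `D m b δ hδ`
  let δ : ℕ → ℝ := fun k => ‖b‖ * (1 / 2) ^ k / (C (n + k + 1) + 1)
  have hδ : ∀ k, 0 < δ k := fun k => by
    have := hC (n + k + 1)
    positivity
  let r : ℕ → X →ᵇ ℝ := fun k => Nat.rec b (fun k r => r - D (n + k) r (δ k) (hδ k)) k
  have hr0 : r 0 = b := rfl
  have hrs : ∀ k, r (k + 1) = r k - D (n + k) (r k) (δ k) (hδ k) := fun k => rfl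
  let d : ℕ → X →ᵇ ℝ := fun k => D (n + k) (r k) (δ k) (hδ k)
  have hrn : ∀ k, ‖r (k + 1)‖ < δ k := fun k => by
    rw [hrs]
    exact hD1 _ _ _ _
  have hTd0 : ∀ x ∈ K n, |(T (d 0) : X → ℝ) x| ≤ C n * ‖b‖ := fun x hx => hD2 n _ _ _ x hx
  have hTd : ∀ k, ∀ x ∈ K (n + (k + 1)), |(T (d (k + 1)) : X → ℝ) x| ≤ ‖b‖ * (1 / 2) ^ k := by
    intro k x hx
    refine (hD2 (n + (k + 1)) _ _ _ x hx).trans ?_
    have h1 := (hrn k).le
    have h2 := hC (n + k + 1)
    calc C (n + (k + 1)) * ‖r (k + 1)‖ ≤ C (n + (k + 1)) * δ k :=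
        mul_le_mul_of_nonneg_left h1 (hC _).le
      _ = ‖b‖ * (1 / 2) ^ k * (C (n + k + 1) / (C (n + k + 1) + 1)) := by
          simp only [δ]
          rw [show n + (k + 1) = n + k + 1 by ring]
          ring
      _ ≤ ‖b‖ * (1 / 2) ^ k * 1 := by
          apply mul_le_mul_of_nonneg_left _ (by positivity)
          rw [div_le_one (by positivity)]
          linarith
      _ = _ := mul_one _
  have hsum : ∀ k, ∑ i ∈ Finset.range k, d i = b - r k := by
    intro k
    induction k with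
    | zero => simp [hr0]
    | succ k ih =>
      rw [Finset.sum_range_succ, ih, hrs]
      simp only [d]
      abel
  have hδ0 : Tendsto δ atTop (𝓝 0) := by
    have h1 : ∀ k, δ k ≤ ‖b‖ * (1 / 2) ^ k := by
      intro k
      have := hC (n + k + 1)
      exact div_le_self (by positivity) (by linarith)
    have h2 : Tendsto (fun k : ℕ => ‖b‖ * (1 / 2 : ℝ) ^ k) atTop (𝓝 0) := by
      simpa using (tendsto_pow_atTop_nhds_zero_of_lt_one (by norm_num : (0:ℝ) ≤ 1 / 2)
        (by norm_num)).const_mul ‖b‖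
    exact squeeze_zero (fun k => (hδ k).le) h1 h2
  have hlim : Tendsto (fun k => ∑ i ∈ Finset.range (k + 1), d i) atTop (𝓝 b) := by
    rw [tendsto_iff_norm_sub_tendsto_zero]
    refine squeeze_zero (fun _ => norm_nonneg _) (fun k => ?_) hδ0
    rw [hsum, sub_sub_cancel_left, norm_neg]
    exact (hrn k).le
  have hgeo : Summable (fun k : ℕ => ‖b‖ * (1 / 2 : ℝ) ^ k) :=
    (summable_geometric_of_lt_one (by norm_num) (by norm_num)).mul_left _
  -- the limit function
  have hcontOn : ∀ m, ContinuousOn (fun x => ∑' k, (T (d (k + 1 + m)) : X → ℝ) x) (K m) := by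
    intro m
    apply continuousOn_tsum (u := fun k : ℕ => ‖b‖ * (1 / 2 : ℝ) ^ (k + m))
    · intro k
      have : Continuous (T (d (k + 1 + m)) : X → ℝ) := (T (d (k + 1 + m))).2
      exact this.continuousOn
    · exact hgeo.comp_injective (add_left_injective m)
    · intro k x hx
      have := hTd (k + m) x (hmono (by omega) hx)
      rw [show k + m + 1 = k + 1 + m by ring] at this
      exact this
  have hsm : ∀ x, Summable (fun k => (T (d k) : X → ℝ) x) := by
    intro x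
    obtain ⟨m, hm⟩ := hcov x
    rw [← summable_nat_add_iff (m + 1)]
    refine Summable.of_norm_bounded (g := fun k : ℕ => ‖b‖ * (1 / 2 : ℝ) ^ (k + m))
      (hgeo.comp_injective (add_left_injective m)) ?_
    intro k
    exact hTd (k + m) x (hmono (by omega) hm)
  have hg : Continuous (fun x => ∑' k, (T (d k) : X → ℝ) x) := by
    apply hcont
    intro m
    have h1 : (fun x => ∑' k, (T (d k) : X → ℝ) x) = fun x =>
        ∑ k ∈ Finset.range (m + 1), (T (d k) : X → ℝ) x +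
          ∑' k, (T (d (k + 1 + m)) : X → ℝ) x := by
      funext x
      rw [← (hsm x).sum_add_tsum_nat_add (m + 1)]
      congr 1
      apply tsum_congr
      intro k
      rw [show k + (m + 1) = k + 1 + m by ring]
    rw [h1]
    apply ContinuousOn.add _ (hcontOn m)
    apply Continuous.continuousOn
    apply continuous_finsetSum
    intro k _
    exact (T (d k)).2
  have hTb : T b = ⟨fun x => ∑' k, (T (d k) : X → ℝ) x, hg⟩ := by
    apply hT (fun k => ∑ i ∈ Finset.range (k + 1), d i) b _ hlim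
    intro x
    have h1 : (fun k => (T (∑ i ∈ Finset.range (k + 1), d i) : X → ℝ) x) =
        fun k => ∑ i ∈ Finset.range (k + 1), (T (d i) : X → ℝ) x := by
      funext k
      rw [map_sum]
      simp [Finset.sum_apply]
    rw [h1]
    exact ((hsm x).hasSum.tendsto_sum_nat).comp (tendsto_add_atTop_nat 1)
  intro x hx
  rw [hTb]
  change |∑' k, (T (d k) : X → ℝ) x| ≤ _
  rw [(hsm x).tsum_eq_zero_add]
  have h2 : |∑' k, (T (d (k + 1)) : X → ℝ) x| ≤ ∑' k : ℕ, ‖b‖ * (1 / 2 : ℝ) ^ k := by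
    rw [← Real.norm_eq_abs]
    exact tsum_of_norm_bounded hgeo.hasSum (fun k => hTd k x (hmono (by omega) hx))
  have h3 : ∑' k : ℕ, ‖b‖ * (1 / 2 : ℝ) ^ k = ‖b‖ * 2 := by
    rw [tsum_mul_left, tsum_geometric_two]
  calc _ ≤ |(T (d 0) : X → ℝ) x| + |∑' k, (T (d (k + 1)) : X → ℝ) x| := abs_add_le _ _
    _ ≤ C n * ‖b‖ + ‖b‖ * 2 := add_le_add (hTd0 x hx) (h2.trans h3.le)
    _ = (C n + 2) * ‖b‖ := by ring

end Fre

end H490LC
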