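import Pool.Agent.H490R3.LC.Cpt
import Pool.Agent.H490R3.LC.Frechet

set_option autoImplicit false

open Filter Topology Set
open scoped BoundedContinuousFunction

namespace H490LC

universe u v

/-- Hahn-Banach through a linear map, real version. -/
theorem exists_functional {E X : Type*} [AddCommGroup E] [Module ℝ E] [NormedAddCommGroup X]
    [NormedSpace ℝ X] (T : E →ₗ[ℝ] X) (l : E →ₗ[ℝ] ℝ) (C : ℝ)
    (h : ∀ e, ‖l e‖ ≤ C * ‖T e‖) :
    ∃ Ψ : X →L[ℝ] ℝ, ∀ e, Ψ (T e) = l e := by
  have hsurj : Function.Surjective T.rangeRestrict := T.surjective_rangeRestrict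
  obtain ⟨s, hs⟩ := T.rangeRestrict.exists_rightInverse_of_surjective
    (LinearMap.range_eq_top.2 hsurj)
  have hs' : ∀ y : LinearMap.range T, T (s y) = y := by
    intro y
    have := congrArg (fun g => ((g y : LinearMap.range T) : X)) hs
    simpa using this
  let l0 : LinearMap.range T →ₗ[ℝ] ℝ := l ∘ₗ s
  have hl0 : ∀ y : LinearMap.range T, ‖l0 y‖ ≤ C * ‖y‖ := by
    intro y
    have := h (s y)
    rw [hs'] at this
    exact this
  let f : StrongDual ℝ (LinearMap.range T) := l0.mkContinuous C hl0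
  obtain ⟨Ψ, hΨ, hΨn⟩ := exists_extension_norm_eq (LinearMap.range T) f
  refine ⟨Ψ, ?_⟩
  intro e
  have h1 := hΨ ⟨T e, LinearMap.mem_range_self T e⟩
  have h2 : f ⟨T e, LinearMap.mem_range_self T e⟩ = l e := by
    change l (s ⟨T e, LinearMap.mem_range_self T e⟩) = l e
    have h3 := h (s ⟨T e, LinearMap.mem_range_self T e⟩ - e)
    rw [map_sub, map_sub, hs'] at h3
    simp only [sub_self, norm_zero, mul_zero] at h3
    exact sub_eq_zero.1 (norm_le_zero_iff.1 h3)
  rw [← h2, ← h1]

section KO

variable {X : Type u} [TopologicalSpace X] (K : ℕ → Set X)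

/-- The inverse of a condensation of `C_p(X)` onto itself, evaluated at a point, is bounded by the
supremum over one of the compact sets. -/
lemma inverse_bound (hK : ∀ n, IsCompact (K n)) (hmono : Monotone K)
    (hcov : ∀ x, ∃ n, x ∈ K n)
    (hcont : ∀ f : X → ℝ, (∀ n, ContinuousOn f (K n)) → Continuous f)
    (N : Cp X →ₗ[ℝ] Cp X) (hN : Continuous N) (P : Cp X →ₗ[ℝ] Cp X) (hNP : ∀ f, N (P f) = f)
    (hPN : ∀ f, P (N f) = f) (x₀ : X) :
    ∃ (m : ℕ) (C : ℝ), 0 ≤ C ∧ ∀ (f : Cp X) (c : ℝ), 0 ≤ c → (∀ x ∈ K m, |(f : X → ℝ) x| ≤ c) →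
      |(P f : X → ℝ) x₀| ≤ C * c := by
  by_contra hcon
  push Not at hcon
  have hcon' : ∀ m : ℕ, ∃ f : Cp X, (∀ x ∈ K m, |(f : X → ℝ) x| ≤ (1 / 2) ^ m) ∧
      |(P f : X → ℝ) x₀| = 2 ^ m := by
    intro m
    obtain ⟨f, c, hc, hf, hlt⟩ := hcon m (4 ^ m) (by positivity)
    have ht : 0 < |(P f : X → ℝ) x₀| := lt_of_le_of_lt (by positivity) hlt
    refine ⟨(2 ^ m / |(P f : X → ℝ) x₀|) • f, ?_, ?_⟩
    · intro x hx
      change |(2 ^ m / |(P f : X → ℝ) x₀|) * (f : X → ℝ) x| ≤ _
      rw [abs_mul, abs_of_nonneg (by positivity)]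
      have h1 := hf x hx
      calc 2 ^ m / |(P f : X → ℝ) x₀| * |(f : X → ℝ) x|
          ≤ 2 ^ m / |(P f : X → ℝ) x₀| * c := mul_le_mul_of_nonneg_left h1 (by positivity)
        _ ≤ (1 / 2) ^ m := by
          rw [div_mul_eq_mul_div, div_le_iff₀ ht]
          have h2 : (1 / 2 : ℝ) ^ m * (4 ^ m) = 2 ^ m := by
            rw [← mul_pow]
            norm_num
          calc 2 ^ m * c = (1 / 2 : ℝ) ^ m * (4 ^ m * c) := by rw [← mul_assoc, h2]
            _ ≤ (1 / 2 : ℝ) ^ m * |(P f : X → ℝ) x₀| :=
                mul_le_mul_of_nonneg_left hlt.le (by positivity)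
    · rw [map_smul]
      change |(2 ^ m / |(P f : X → ℝ) x₀|) * (P f : X → ℝ) x₀| = _
      rw [abs_mul, abs_of_nonneg (by positivity)]
      field_simp
  choose f hf1 hf2 using hcon'
  have hfc : ∀ m, Continuous (f m : X → ℝ) := fun m => (f m).2
  have hgeo : Summable (fun k : ℕ => (1 / 2 : ℝ) ^ k) :=
    summable_geometric_of_lt_one (by norm_num) (by norm_num)
  have hsm : ∀ x, Summable (fun k => |(f k : X → ℝ) x|) := by
    intro x
    obtain ⟨m, hm⟩ := hcov x
    rw [← summable_nat_add_iff m]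
    refine Summable.of_nonneg_of_le (fun _ => abs_nonneg _) (fun k => ?_)
      (hgeo.comp_injective (add_left_injective m))
    exact hf1 (k + m) x (hmono (by omega) hm)
  let w : X → ℝ := fun x => 1 + ∑' k, |(f k : X → ℝ) x|
  have hw1 : ∀ x, 1 ≤ w x := fun x => by
    have : 0 ≤ ∑' k, |(f k : X → ℝ) x| := tsum_nonneg fun _ => abs_nonneg _
    simp only [w]
    linarith
  have hwf : ∀ k x, |(f k : X → ℝ) x| ≤ w x := fun k x => by
    have : |(f k : X → ℝ) x| ≤ ∑' k, |(f k : X → ℝ) x| :=
      (hsm x).le_tsum k (fun _ _ => abs_nonneg _)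
    simp only [w]
    linarith
  have hw : Continuous w := by
    apply hcont
    intro m
    have h1 : w = fun x => 1 + (∑ k ∈ Finset.range m, |(f k : X → ℝ) x| +
          ∑' k, |(f (k + m) : X → ℝ) x|) := by
      funext x
      simp only [w]
      rw [(hsm x).sum_add_tsum_nat_add m]
    rw [h1]
    apply ContinuousOn.add continuousOn_const
    apply ContinuousOn.add
    · apply Continuous.continuousOn
      apply continuous_finsetSum
      intro k _
      exact (hfc k).abs
    · apply continuousOn_tsum (u := fun k : ℕ => (1 / 2 : ℝ) ^ (k + m))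
      · intro k
        exact (hfc (k + m)).abs.continuousOn
      · exact hgeo.comp_injective (add_left_injective m)
      · intro k x hx
        rw [Real.norm_eq_abs, abs_abs]
        exact hf1 (k + m) x (hmono (by omega) hx)
  -- the operator on bounded functions
  let mulw : (X →ᵇ ℝ) →ₗ[ℝ] Cp X :=
    { toFun := fun b => ⟨fun x => w x * b x, hw.mul b.continuous⟩
      map_add' := by
        intro a b
        apply Subtype.ext
        funext x
        change w x * (a x + b x) = w x * a x + w x * b x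
        ring
      map_smul' := by
        intro c a
        apply Subtype.ext
        funext x
        change w x * (c * a x) = c * (w x * a x)
        ring }
  have hmulw : ∀ b x, (mulw b : X → ℝ) x = w x * b x := fun _ _ => rfl
  obtain ⟨n₀, hn₀⟩ := hcov x₀
  obtain ⟨C, hC0, hC⟩ := closed_graph K hK hmono hcov hcont (P.comp mulw) (by
    intro b b' g hb hg
    have hNc : Tendsto (fun k => N ((P.comp mulw) (b k))) atTop (𝓝 (N g)) := by
      apply (hN.tendsto g).comp
      rw [tendsto_subtype_rng, tendsto_pi_nhds]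
      exact hg
    have h1 : N g = mulw b' := by
      apply Subtype.ext
      funext x
      have h2 : Tendsto (fun k => (N ((P.comp mulw) (b k)) : X → ℝ) x) atTop
          (𝓝 ((N g : X → ℝ) x)) := by
        rw [tendsto_subtype_rng, tendsto_pi_nhds] at hNc
        exact hNc x
      refine tendsto_nhds_unique h2 ?_
      have h3 : (fun k => (N ((P.comp mulw) (b k)) : X → ℝ) x) = fun k => w x * b k x := by
        funext k
        rw [LinearMap.comp_apply, hNP]
        rfl
      rw [h3, hmulw]
      exact (((BoundedContinuousFunction.evalCLM ℝ x).continuous.tendsto b').comp hb).const_mul _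
    rw [LinearMap.comp_apply, ← h1, hPN]) n₀
  obtain ⟨m, hm⟩ := exists_nat_gt C
  let b : X →ᵇ ℝ := BoundedContinuousFunction.ofNormedAddCommGroup
    (fun x => (f m : X → ℝ) x / w x) ((hfc m).div hw (fun x => by linarith [hw1 x])) 1 (by
      intro x
      have h1 : 0 < w x := by linarith [hw1 x]
      rw [Real.norm_eq_abs, abs_div, abs_of_pos h1, div_le_one h1]
      exact hwf m x)
  have hb : ‖b‖ ≤ 1 := BoundedContinuousFunction.norm_ofNormedAddCommGroup_le _ zero_le_one _
  have hbf : mulw b = f m := by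
    apply Subtype.ext
    funext x
    have h1 : 0 < w x := by linarith [hw1 x]
    change w x * ((f m : X → ℝ) x / w x) = _
    field_simp
  have h4 := hC b x₀ hn₀
  rw [LinearMap.comp_apply, hbf, hf2] at h4
  have h5 : C * ‖b‖ ≤ C := by
    calc C * ‖b‖ ≤ C * 1 := mul_le_mul_of_nonneg_left hb hC0
      _ = C := mul_one _
  have h6 : (m : ℝ) < 2 ^ m := by exact_mod_cast Nat.lt_two_pow_self
  linarith

end KO

end H490LC
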