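import Pool.Agent.H490R3.LC.Basic
import Pool.Agent.H731R2.Riesz

set_option autoImplicit false

open Filter Topology Set MeasureTheory
open scoped ENNReal

namespace H490LC

universe u v

section Meas

variable {X : Type u} [TopologicalSpace X] [CompactSpace X] [T2Space X]

/-- A bounded functional on `C(X, ℝ)` is dominated by a finite regular measure. -/
lemma exists_dominating (Φ : C(X, ℝ) →L[ℝ] ℝ) [MeasurableSpace X] [BorelSpace X] :
    ∃ μ : Measure X, IsFiniteMeasure μ ∧ μ.Regular ∧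
      ∀ f : C(X, ℝ), |Φ f| ≤ ∫ x, |f x| ∂μ := by
  let re : C(X, ℂ) → C(X, ℝ) := fun h => ⟨fun x => (h x).re, by fun_prop⟩
  let im : C(X, ℂ) → C(X, ℝ) := fun h => ⟨fun x => (h x).im, by fun_prop⟩
  have hre : ∀ h, ‖re h‖ ≤ ‖h‖ := by
    intro h
    rw [ContinuousMap.norm_le _ (norm_nonneg _)]
    intro x
    exact (Complex.abs_re_le_norm _).trans (h.norm_coe_le_norm x)
  have him : ∀ h, ‖im h‖ ≤ ‖h‖ := by
    intro h
    rw [ContinuousMap.norm_le _ (norm_nonneg _)]
    intro x
    exact (Complex.abs_im_le_norm _).trans (h.norm_coe_le_norm x)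
  let Ψ₀ : C(X, ℂ) →ₗ[ℂ] ℂ :=
    { toFun := fun h => (Φ (re h) : ℂ) + Complex.I * (Φ (im h) : ℂ)
      map_add' := by
        intro a b
        have e1 : re (a + b) = re a + re b := by ext x; simp [re]
        have e2 : im (a + b) = im a + im b := by ext x; simp [im]
        rw [e1, e2, map_add, map_add]
        push_cast
        ring
      map_smul' := by
        intro c a
        have e1 : re (c • a) = c.re • re a - c.im • im a := by
          ext x; simp [re, im, Complex.mul_re]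
        have e2 : im (c • a) = c.re • im a + c.im • re a := by
          ext x; simp [re, im, Complex.mul_im]
        rw [e1, e2, map_sub, map_add, map_smul, map_smul, map_smul, map_smul]
        apply Complex.ext <;> simp <;> ring }
  let Ψ : C(X, ℂ) →L[ℂ] ℂ := Ψ₀.mkContinuous (‖Φ‖ + ‖Φ‖) (by
    intro h
    change ‖(Φ (re h) : ℂ) + Complex.I * (Φ (im h) : ℂ)‖ ≤ _
    refine (norm_add_le _ _).trans ?_
    rw [norm_mul, Complex.norm_I, one_mul, Complex.norm_real, Complex.norm_real, add_mul]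
    exact add_le_add
      ((Φ.le_opNorm _).trans (mul_le_mul_of_nonneg_left (hre h) (norm_nonneg _)))
      ((Φ.le_opNorm _).trans (mul_le_mul_of_nonneg_left (him h) (norm_nonneg _))))
  obtain ⟨μ, h1, h2, h3⟩ := Pool.Agent.H731R2.exists_dominating_measure (X := X) Ψ
  refine ⟨μ, h1, h2, ?_⟩
  intro f
  let fc : C(X, ℂ) := ⟨fun x => (f x : ℂ), by fun_prop⟩
  have h4 := h3 fc
  have h5 : Ψ fc = (Φ f : ℂ) := by
    change (Φ (re fc) : ℂ) + Complex.I * (Φ (im fc) : ℂ) = _
    have e1 : re fc = f := by ext x; simp [re, fc]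
    have e2 : im fc = 0 := by ext x; simp [im, fc]
    rw [e1, e2, map_zero]
    simp
  rw [h5, Complex.norm_real, Real.norm_eq_abs] at h4
  refine h4.trans (le_of_eq ?_)
  congr 1
  funext x
  simp [fc]

end Meas

section Strata

variable {X : Type u} {Y : Type v} [TopologicalSpace X] [TopologicalSpace Y] [T35Space Y]
variable [CompactSpace X] [T2Space X] [MeasurableSpace X] [BorelSpace X]
variable {M : Cp Y → Cp X} {α : X → Y →₀ ℝ}

lemma strata (hα : Rep M α) (μ : Measure X) [IsFiniteMeasure μ] [μ.Regular] (n : ℕ) :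
    ∀ ε : ℝ≥0∞, ε ≠ 0 → ∃ K : Set X, IsCompact K ∧ μ ({x | (α x).support.card ≤ n} \ K) ≤ ε ∧
      ∃ S : Set Y, IsCompact S ∧ ∀ x ∈ K, ∀ y ∈ (α x).support, y ∈ S := by
  induction n with
  | zero =>
    intro ε hε
    refine ⟨{x | (α x).support.card ≤ 0}, (isClosed_card_le hα 0).isCompact, by simp, ∅,
      isCompact_empty, ?_⟩
    intro x hx y hy
    simp only [mem_ofPred_eq, Nat.le_zero, Finset.card_eq_zero] at hx
    rw [hx] at hy
    simp at hy
  | succ n ih =>
    intro ε hε
    have hε2 : ε / 2 ≠ 0 := by simpa using hε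
    obtain ⟨K, hK, hμK, S, hS, hKS⟩ := ih (ε / 2) hε2
    let D : Set X := {x | (α x).support.card ≤ n + 1} \ {x | (α x).support.card ≤ n}
    have hD : MeasurableSet D :=
      (isClosed_card_le hα (n + 1)).measurableSet.diff (isClosed_card_le hα n).measurableSet
    obtain ⟨K', hK'D, hK', hμK'⟩ := hD.exists_isCompact_diff_lt (measure_ne_top μ D) hε2
    have hcard : ∀ x ∈ K', (α x).support.card = n + 1 := by
      intro x hx
      have := hK'D hx
      simp only [D, mem_diff, mem_ofPred_eq, not_le] at this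
      omega
    refine ⟨K ∪ K', hK.union hK', ?_, S ∪ {y : Y | ∃ x ∈ K', y ∈ (α x).support},
      hS.union (isCompact_supp hα K' hK' (n + 1) hcard), ?_⟩
    · have hsub : {x | (α x).support.card ≤ n + 1} \ (K ∪ K') ⊆
          ({x | (α x).support.card ≤ n} \ K) ∪ (D \ K') := by
        intro x hx
        simp only [D, mem_diff, mem_union, mem_ofPred_eq, not_or, not_le] at hx ⊢
        by_cases h : (α x).support.card ≤ n
        · exact Or.inl ⟨h, hx.2.1⟩
        · exact Or.inr ⟨⟨hx.1, by omega⟩, hx.2.2⟩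
      calc μ _ ≤ μ (({x | (α x).support.card ≤ n} \ K) ∪ (D \ K')) := measure_mono hsub
        _ ≤ μ ({x | (α x).support.card ≤ n} \ K) + μ (D \ K') := measure_union_le _ _
        _ ≤ ε / 2 + ε / 2 := add_le_add hμK hμK'.le
        _ = ε := ENNReal.add_halves ε
    · rintro x (hx | hx) y hy
      · exact Or.inl (hKS x hx y hy)
      · exact Or.inr ⟨x, hx, hy⟩

lemma strata' (hα : Rep M α) (μ : Measure X) [IsFiniteMeasure μ] [μ.Regular]
    (ε : ℝ≥0∞) (hε : ε ≠ 0) : ∃ K : Set X, IsCompact K ∧ μ Kᶜ ≤ ε ∧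
      ∃ S : Set Y, IsCompact S ∧ ∀ x ∈ K, ∀ y ∈ (α x).support, y ∈ S := by
  have hε2 : ε / 2 ≠ 0 := by simpa using hε
  let A : ℕ → Set X := fun n => {x | (α x).support.card ≤ n}ᶜ
  have hanti : Antitone A := by
    intro m n hmn
    apply compl_subset_compl.2
    intro x hx
    simp only [mem_ofPred_eq] at hx ⊢
    omega
  have hinter : ⋂ n, A n = ∅ := by
    ext x
    simp only [A, mem_iInter, mem_compl_iff, mem_ofPred_eq, not_le, mem_empty_iff_false, iff_false,
      not_forall, not_lt]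
    exact ⟨_, le_rfl⟩
  have hlim : Tendsto (fun n => μ (A n)) atTop (𝓝 0) := by
    have := tendsto_measure_iInter_atTop (μ := μ) (s := A)
      (fun n => ((isClosed_card_le hα n).measurableSet.compl).nullMeasurableSet) hanti
      ⟨0, measure_ne_top _ _⟩
    rwa [hinter, measure_empty] at this
  obtain ⟨n, hn⟩ := ((hlim.eventually_le_const (pos_iff_ne_zero.2 hε2))).exists
  obtain ⟨K, hK, hμK, hS⟩ := strata hα μ n (ε / 2) hε2
  refine ⟨K, hK, ?_, hS⟩
  have hsub : Kᶜ ⊆ ({x | (α x).support.card ≤ n} \ K) ∪ A n := by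
    intro x hx
    by_cases h : (α x).support.card ≤ n
    · exact Or.inl ⟨h, hx⟩
    · exact Or.inr h
  calc μ _ ≤ μ (({x | (α x).support.card ≤ n} \ K) ∪ A n) := measure_mono hsub
    _ ≤ μ ({x | (α x).support.card ≤ n} \ K) + μ (A n) := measure_union_le _ _
    _ ≤ ε / 2 + ε / 2 := add_le_add hμK hn
    _ = ε := ENNReal.add_halves ε

end Strata

/-- **Core.** Let `X` be compact, `M` represented by finitely supported measures with
`|M g x| ≤ B` for `|g| ≤ 1`, and let `Φ` be a bounded functional on `C(X)` such that `Φ (M g)` is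
the limit of `g` along the ultrafilter `𝒰` for every bounded `g`. Then `𝒰` converges. -/
theorem core {X : Type u} {Y : Type v} [TopologicalSpace X] [TopologicalSpace Y] [T35Space Y]
    [CompactSpace X] [T2Space X] {M : Cp Y → Cp X} {α : X → Y →₀ ℝ} (hα : Rep M α) (B : ℝ)
    (hB : ∀ (x : X) (g : Cp Y), (∀ y, |(g : Y → ℝ) y| ≤ 1) → |(M g : X → ℝ) x| ≤ B)
    (𝒰 : Ultrafilter Y) (Φ : C(X, ℝ) →L[ℝ] ℝ)
    (hΦ : ∀ g : Cp Y, (∀ᶠ y in (𝒰 : Filter Y), (g : Y → ℝ) y = 1) →
      Φ ⟨(M g : X → ℝ), (M g).2⟩ = 1) :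
    ∃ y, (𝒰 : Filter Y) ≤ 𝓝 y := by
  classical
  by_contra hcon
  push Not at hcon
  letI : MeasurableSpace X := borel X
  haveI : BorelSpace X := ⟨rfl⟩
  obtain ⟨μ, hfin, hreg, hdom⟩ := exists_dominating Φ
  have hB' : 0 < |B| + 1 := by positivity
  obtain ⟨K, hK, hμK, S, hS, hKS⟩ := strata' hα μ (ENNReal.ofReal (1 / (2 * (|B| + 1))))
    (by simp only [ne_eq, ENNReal.ofReal_eq_zero, not_le]; positivity)
  obtain ⟨g, hg, hg0, hg1, hgS, hgU⟩ := exists_sep S hS 𝒰 (fun y _ => hcon y)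
  let G : Cp Y := ⟨g, hg⟩
  have h1 := hΦ G hgU
  have h2 := hdom ⟨(M G : X → ℝ), (M G).2⟩
  rw [h1, abs_one] at h2
  have hMG : Continuous (M G : X → ℝ) := (M G).2
  have hzero : ∀ x ∈ K, (M G : X → ℝ) x = 0 := by
    intro x hx
    rw [hα]
    apply Finset.sum_eq_zero
    intro y hy
    change α x y * g y = 0
    rw [hgS y (hKS x hx y hy), mul_zero]
  have hbd : ∀ x, |(M G : X → ℝ) x| ≤ |B| + 1 := by
    intro x
    refine (hB x G ?_).trans ((le_abs_self B).trans (by linarith))
    intro y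
    change |g y| ≤ 1
    rw [abs_of_nonneg (hg0 y)]
    exact hg1 y
  have h3 : ∫ x, |(M G : X → ℝ) x| ∂μ ≤ ∫ x, (Kᶜ).indicator (fun _ => |B| + 1) x ∂μ := by
    apply integral_mono
    · exact (hMG.abs.integrable_of_hasCompactSupport (HasCompactSupport.of_compactSpace _))
    · exact (integrable_const _).indicator hK.measurableSet.compl
    · intro x
      by_cases hx : x ∈ K
      · simp [hx, hzero x hx]
      · simp only [indicator, mem_compl_iff, hx, not_false_eq_true, if_true]
        exact hbd x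
  rw [integral_indicator hK.measurableSet.compl, setIntegral_const, smul_eq_mul] at h3
  have h4 : μ.real Kᶜ ≤ 1 / (2 * (|B| + 1)) := by
    have := ENNReal.toReal_mono ENNReal.ofReal_ne_top hμK
    rwa [ENNReal.toReal_ofReal (by positivity)] at this
  have h5 : μ.real Kᶜ * (|B| + 1) ≤ 1 / 2 := by
    calc μ.real Kᶜ * (|B| + 1) ≤ 1 / (2 * (|B| + 1)) * (|B| + 1) :=
        mul_le_mul_of_nonneg_right h4 hB'.le
      _ = 1 / 2 := by field_simp
  have h6 : (1 : ℝ) ≤ ∫ x, |(M G : X → ℝ) x| ∂μ := h2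
  linarith

end H490LC
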