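import Pool.Agent.H490R3.LC.Main

set_option autoImplicit false

open Filter Topology Set
open scoped BoundedContinuousFunction

namespace H490LC

universe u v

section Gam

variable {X : Type u} [TopologicalSpace X] (K : ℕ → Set X)

/-- Functionals with `k` point masses in `K n` of size at most `n`. -/
def Gam (k n : ℕ) : Set (Cp X → ℝ) :=
  (fun p : (Fin k → ℝ) × (Fin k → X) => fun f : Cp X => ∑ i, p.1 i * (f : X → ℝ) (p.2 i)) ''
    ((Set.univ.pi fun _ => Icc (-(n : ℝ)) n) ×ˢ (Set.univ.pi fun _ => K n))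

lemma isCompact_Gam (hK : ∀ n, IsCompact (K n)) (k n : ℕ) : IsCompact (Gam K k n) := by
  apply IsCompact.image
  · exact (isCompact_univ_pi fun _ => isCompact_Icc).prod (isCompact_univ_pi fun _ => hK n)
  · apply continuous_pi
    intro f
    have hf : Continuous (f : X → ℝ) := f.2
    fun_prop

lemma mem_Gam (hmono : Monotone K) (hcov : ∀ x, ∃ n, x ∈ K n) (ρ : X →₀ ℝ) :
    ∃ k n, (fun f : Cp X => ∑ x ∈ ρ.support, ρ x * (f : X → ℝ) x) ∈ Gam K k n := by
  classical
  choose ν hν using hcov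
  obtain ⟨c, hc⟩ := exists_nat_ge (∑ x ∈ ρ.support, |ρ x|)
  refine ⟨ρ.support.card, max c (∑ x ∈ ρ.support, ν x), ?_⟩
  refine ⟨⟨fun i => ρ (ρ.support.equivFin.symm i), fun i => ρ.support.equivFin.symm i⟩, ?_, ?_⟩
  · constructor
    · intro i _
      have h1 : |ρ (ρ.support.equivFin.symm i : X)| ≤ ∑ x ∈ ρ.support, |ρ x| :=
        Finset.single_le_sum (f := fun x => |ρ x|) (fun _ _ => abs_nonneg _)
          (ρ.support.equivFin.symm i).2
      have h2 : (c : ℝ) ≤ ((max c (∑ x ∈ ρ.support, ν x) : ℕ) : ℝ) := by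
        exact_mod_cast le_max_left _ _
      exact abs_le.1 ((h1.trans hc).trans h2)
    · intro i _
      refine hmono ?_ (hν _)
      exact (Finset.single_le_sum (f := ν) (fun _ _ => Nat.zero_le _)
        (ρ.support.equivFin.symm i).2).trans (le_max_right _ _)
  · funext f
    simp only
    rw [← Finset.sum_coe_sort ρ.support]
    exact Equiv.sum_comp ρ.support.equivFin.symm (fun x : ρ.support => ρ x * (f : X → ℝ) x)

end Gam

section Real

variable {X : Type u} {Y : Type v} [TopologicalSpace X] [TopologicalSpace Y] (K : ℕ → Set X)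

/-- If every continuous function has a finite limit along `𝒰`, then the limit functional composed
with `L` is a finite combination of evaluations. -/
lemma limit_functional (hK : ∀ n, IsCompact (K n)) (hmono : Monotone K)
    (hcov : ∀ x, ∃ n, x ∈ K n) (L : Cp X →ₗ[ℝ] Cp Y) {β : Y → X →₀ ℝ}
    (hβ : Rep (fun f => L f) β) (𝒰 : Ultrafilter Y) (lam : Cp Y → ℝ)
    (hlam : ∀ g : Cp Y, Tendsto (g : Y → ℝ) 𝒰 (𝓝 (lam g))) :
    ∃ (k : ℕ) (a : Fin k → ℝ) (x : Fin k → X), ∀ f : Cp X,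
      lam (L f) = ∑ i, a i * (f : X → ℝ) (x i) := by
  by_contra hcon
  have hnot : ∀ k n, (fun f : Cp X => lam (L f)) ∉ Gam K k n := by
    rintro k n ⟨⟨a, x⟩, -, h⟩
    exact hcon ⟨k, a, x, fun f => (congrFun h f).symm⟩
  have hsep : ∀ j : ℕ, ∃ G : (Cp X → ℝ) → unitInterval, Continuous G ∧
      G (fun f : Cp X => lam (L f)) = 0 ∧ EqOn G 1 (Gam K j.unpair.1 j.unpair.2) := fun j =>
    CompletelyRegularSpace.completely_regular _ _ (isCompact_Gam K hK _ _).isClosed
      (hnot _ _)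
  choose G hG1 hG2 hG3 using hsep
  let F : (Cp X → ℝ) → ℝ := fun ζ => ∑' j : ℕ, (1 / 2 : ℝ) ^ j * (G j ζ : ℝ)
  have hgeo : Summable (fun k : ℕ => (1 / 2 : ℝ) ^ k) :=
    summable_geometric_of_lt_one (by norm_num) (by norm_num)
  have hbd : ∀ j ζ, ‖(1 / 2 : ℝ) ^ j * (G j ζ : ℝ)‖ ≤ (1 / 2 : ℝ) ^ j := by
    intro j ζ
    rw [Real.norm_eq_abs, abs_mul, abs_of_nonneg (by positivity), abs_of_nonneg (G j ζ).2.1]
    exact mul_le_of_le_one_right (by positivity) (G j ζ).2.2
  have hF : Continuous F := by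
    apply continuous_tsum (u := fun k : ℕ => (1 / 2 : ℝ) ^ k)
    · intro j
      exact continuous_const.mul (continuous_subtype_val.comp (hG1 j))
    · exact hgeo
    · exact hbd
  have hF0 : F (fun f : Cp X => lam (L f)) = 0 := by
    simp only [F]
    have : ∀ j, (1 / 2 : ℝ) ^ j * (G j (fun f : Cp X => lam (L f)) : ℝ) = 0 := by
      intro j
      rw [hG2 j]
      simp
    simp only [this, tsum_zero]
  let Φ : Y → (Cp X → ℝ) := fun y f => (L f : Y → ℝ) y
  have hΦ : Continuous Φ := by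
    apply continuous_pi
    intro f
    exact (L f).2
  have hFpos : ∀ y, 0 < F (Φ y) := by
    intro y
    obtain ⟨k, n, hkn⟩ := mem_Gam K hmono hcov (β y)
    have hΦy : Φ y ∈ Gam K k n := by
      have : Φ y = fun f : Cp X => ∑ x ∈ (β y).support, β y x * (f : X → ℝ) x := by
        funext f
        exact hβ y f
      rw [this]
      exact hkn
    have hs : Summable (fun j : ℕ => (1 / 2 : ℝ) ^ j * (G j (Φ y) : ℝ)) :=
      Summable.of_norm_bounded hgeo (fun j => hbd j _)
    refine hs.tsum_pos (fun j => mul_nonneg (by positivity) (G j _).2.1) (Nat.pair k n) ?_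
    have h1 : G (Nat.pair k n) (Φ y) = 1 := by
      have := hG3 (Nat.pair k n) (x := Φ y) (by rw [Nat.unpair_pair]; exact hΦy)
      simpa using this
    rw [h1]
    simp
  let g : Cp Y := ⟨fun y => (F (Φ y))⁻¹, (hF.comp hΦ).inv₀ (fun y => (hFpos y).ne')⟩
  have h1 := hlam g
  have h2 : Tendsto (fun y => F (Φ y)) 𝒰 (𝓝 0) := by
    rw [← hF0]
    apply (hF.tendsto _).comp
    rw [tendsto_pi_nhds]
    intro f
    exact hlam (L f)
  have h3 := h2.mul h1
  rw [zero_mul] at h3
  have h4 : (fun y => F (Φ y) * (g : Y → ℝ) y) = fun _ => 1 := by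
    funext y
    exact mul_inv_cancel₀ (hFpos y).ne'
  rw [h4] at h3
  exact one_ne_zero (tendsto_nhds_unique tendsto_const_nhds h3)

/-- Ultrafilters along which all continuous functions have finite limits converge. -/
lemma real_converges [T2Space X] [T35Space Y] (hK : ∀ n, IsCompact (K n)) (hmono : Monotone K)
    (hcov : ∀ x, ∃ n, x ∈ K n)
    (hcont : ∀ f : X → ℝ, (∀ n, ContinuousOn f (K n)) → Continuous f)
    (L : Cp X →ₗ[ℝ] Cp Y) (hL : Continuous L) (hLb : Function.Bijective L)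
    (M : Cp Y →ₗ[ℝ] Cp X) (hM : Continuous M) (hMb : Function.Bijective M)
    (𝒰 : Ultrafilter Y) (hlim : ∀ g : Cp Y, ∃ l : ℝ, Tendsto (g : Y → ℝ) 𝒰 (𝓝 l)) :
    ∃ y, (𝒰 : Filter Y) ≤ 𝓝 y := by
  classical
  have hβ' : ∀ y : Y, ∃ β : X →₀ ℝ, ∀ f : Cp X,
      (L f : Y → ℝ) y = ∑ x ∈ β.support, β x * (f : X → ℝ) x := fun y =>
    functional_finsupp ((ev y).comp L) ((continuous_ev y).comp hL)
  choose β hβ using hβ'
  have hα' : ∀ x : X, ∃ α : Y →₀ ℝ, ∀ g : Cp Y,
      (M g : X → ℝ) x = ∑ y ∈ α.support, α y * (g : Y → ℝ) y := fun x =>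
    functional_finsupp ((ev x).comp M) ((continuous_ev x).comp hM)
  choose α hα using hα'
  choose lam hlam using hlim
  obtain ⟨k, a, x, hax⟩ := limit_functional K hK hmono hcov L hβ 𝒰 lam hlam
  let eL : Cp X ≃ₗ[ℝ] Cp Y := LinearEquiv.ofBijective L hLb
  let eM : Cp Y ≃ₗ[ℝ] Cp X := LinearEquiv.ofBijective M hMb
  have heL : ∀ f, eL f = L f := fun _ => rfl
  have heM : ∀ f, eM f = M f := fun _ => rfl
  let P : Cp X →ₗ[ℝ] Cp X := (eL.symm : Cp Y →ₗ[ℝ] Cp X).comp (eM.symm : Cp X →ₗ[ℝ] Cp Y)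
  have hP : ∀ h, P h = eL.symm (eM.symm h) := fun _ => rfl
  have hLP : ∀ h, L (P h) = eM.symm h := fun h => by
    rw [hP, ← heL, LinearEquiv.apply_symm_apply]
  have hib := fun i => inverse_bound K hK hmono hcov hcont (M.comp L) (hM.comp hL) P
    (fun f => by
      rw [LinearMap.comp_apply, hLP, ← heM, LinearEquiv.apply_symm_apply])
    (fun f => by
      rw [hP, LinearMap.comp_apply, ← heM, LinearEquiv.symm_apply_apply, ← heL,
        LinearEquiv.symm_apply_apply]) (x i)
  choose m C hC0 hC using hib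
  let m₀ : ℕ := ∑ i, m i
  have hm₀ : ∀ i, K (m i) ⊆ K m₀ := fun i =>
    hmono (Finset.single_le_sum (f := m) (fun _ _ => Nat.zero_le _) (Finset.mem_univ i))
  have hbound : ∀ (g : Cp Y) (c : ℝ), 0 ≤ c → (∀ z ∈ K m₀, |(M g : X → ℝ) z| ≤ c) →
      |lam g| ≤ (∑ i, |a i| * C i) * c := by
    intro g c hc hg
    have h1 : L (P (M g)) = g := by
      rw [hLP, ← heM, LinearEquiv.symm_apply_apply]
    have h2 : lam g = ∑ i, a i * (P (M g) : X → ℝ) (x i) := by
      rw [← hax, h1]
    rw [h2, Finset.sum_mul]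
    refine (Finset.abs_sum_le_sum_abs _ _).trans (Finset.sum_le_sum fun i _ => ?_)
    rw [abs_mul, mul_assoc]
    exact mul_le_mul_of_nonneg_left
      (hC i (M g) c hc (fun z hz => hg z (hm₀ i hz))) (abs_nonneg _)
  haveI : CompactSpace (K m₀) := isCompact_iff_compactSpace.1 (hK m₀)
  let r : Cp Y →ₗ[ℝ] C(K m₀, ℝ) :=
    { toFun := fun g => ⟨fun z => (M g : X → ℝ) z, ((M g).2 : Continuous _).comp
        continuous_subtype_val⟩
      map_add' := by
        intro g g'
        ext z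
        change (M (g + g') : X → ℝ) z = (M g : X → ℝ) z + (M g' : X → ℝ) z
        rw [map_add]
        rfl
      map_smul' := by
        intro c g
        ext z
        change (M (c • g) : X → ℝ) z = c * (M g : X → ℝ) z
        rw [map_smul]
        rfl }
  let l : Cp Y →ₗ[ℝ] ℝ :=
    { toFun := lam
      map_add' := by
        intro g g'
        exact tendsto_nhds_unique (hlam (g + g')) ((hlam g).add (hlam g'))
      map_smul' := by
        intro c g
        exact tendsto_nhds_unique (hlam (c • g)) ((hlam g).const_mul c) }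
  obtain ⟨Ψ, hΨ⟩ := exists_functional r l (∑ i, |a i| * C i) (by
    intro g
    exact hbound g ‖r g‖ (norm_nonneg _) (fun z hz => (r g).norm_coe_le_norm ⟨z, hz⟩))
  obtain ⟨B, hB0, hB⟩ := unif_bound (M := M) hα (K m₀) (hK m₀)
  exact core (X := K m₀)
    (M := fun g => ⟨fun z => (M g : X → ℝ) z, ((M g).2 : Continuous _).comp
      continuous_subtype_val⟩) (α := fun z => α z) (fun z g => hα z g) B
    (fun z g hg => by
      have := hB z z.2 1 g zero_le_one hg
      rwa [mul_one] at this) 𝒰 Ψ (by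
      intro g hg
      have h1 := hΨ g
      change Ψ (r g) = 1
      rw [h1]
      change lam g = 1
      refine tendsto_nhds_unique (hlam g) ?_
      exact tendsto_const_nhds.congr' (hg.mono fun y hy => hy.symm))

/-- **The `k_ω` case.** -/
theorem komega_case [T2Space X] [T35Space Y] (hK : ∀ n, IsCompact (K n)) (hmono : Monotone K)
    (hcov : ∀ x, ∃ n, x ∈ K n)
    (hcont : ∀ f : X → ℝ, (∀ n, ContinuousOn f (K n)) → Continuous f)
    (L : Cp X →ₗ[ℝ] Cp Y) (hL : Continuous L) (hLb : Function.Bijective L)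
    (M : Cp Y →ₗ[ℝ] Cp X) (hM : Continuous M) (hMb : Function.Bijective M) :
    SigmaCompactSpace Y := by
  classical
  have hβ' : ∀ y : Y, ∃ β : X →₀ ℝ, ∀ f : Cp X,
      (L f : Y → ℝ) y = ∑ x ∈ β.support, β x * (f : X → ℝ) x := fun y =>
    functional_finsupp ((ev y).comp L) ((continuous_ev y).comp hL)
  choose β hβ using hβ'
  let Φ : Y → (Cp X → ℝ) := fun y f => (L f : Y → ℝ) y
  have hΦ : Continuous Φ := by
    apply continuous_pi
    intro f
    exact (L f).2
  refine ⟨⟨fun j => Φ ⁻¹' (Gam K j.unpair.1 j.unpair.2), fun j => ?_, ?_⟩⟩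
  · rw [isCompact_iff_ultrafilter_le_nhds]
    intro 𝒰 h𝒰
    have hcl : IsClosed (Φ ⁻¹' (Gam K j.unpair.1 j.unpair.2)) :=
      (isCompact_Gam K hK _ _).isClosed.preimage hΦ
    obtain ⟨y, hy⟩ := real_converges K hK hmono hcov hcont L hL hLb M hM hMb 𝒰 (by
      intro g
      obtain ⟨f, rfl⟩ := hLb.2 g
      have hf : Continuous (f : X → ℝ) := f.2
      obtain ⟨c, hc⟩ := (hK j.unpair.2).exists_bound_of_continuousOn hf.continuousOn
      let D : ℝ := ∑ _i : Fin j.unpair.1, (j.unpair.2 : ℝ) * |c|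
      have hD : ∀ y ∈ Φ ⁻¹' (Gam K j.unpair.1 j.unpair.2), |(L f : Y → ℝ) y| ≤ D := by
        rintro y ⟨⟨p, q⟩, ⟨hp, hq⟩, hpq⟩
        have h1 : (L f : Y → ℝ) y = ∑ i, p i * (f : X → ℝ) (q i) := (congrFun hpq f).symm
        rw [h1]
        refine (Finset.abs_sum_le_sum_abs _ _).trans (Finset.sum_le_sum fun i _ => ?_)
        rw [abs_mul]
        have h2 : |p i| ≤ (j.unpair.2 : ℝ) := abs_le.2 (hp i (mem_univ i))
        have h3 : |(f : X → ℝ) (q i)| ≤ |c| := (hc _ (hq i (mem_univ i))).trans (le_abs_self c)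
        exact mul_le_mul h2 h3 (abs_nonneg _) (Nat.cast_nonneg _)
      obtain ⟨l, -, hl⟩ := isCompact_iff_ultrafilter_le_nhds.1 (isCompact_Icc (a := -D) (b := D))
        (𝒰.map (L f : Y → ℝ)) (by
          rw [Filter.le_principal_iff]
          change (L f : Y → ℝ) ⁻¹' Icc (-D) D ∈ 𝒰
          rw [Filter.le_principal_iff] at h𝒰
          exact Filter.mem_of_superset h𝒰 (fun y hy => abs_le.1 (hD y hy)))
      exact ⟨l, hl⟩)
    refine ⟨y, ?_, hy⟩
    rw [Filter.le_principal_iff] at h𝒰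
    exact hcl.closure_subset (mem_closure_iff_ultrafilter.2 ⟨𝒰, h𝒰, hy⟩)
  · rw [eq_univ_iff_forall]
    intro y
    obtain ⟨k, n, hkn⟩ := mem_Gam K hmono hcov (β y)
    refine mem_iUnion.2 ⟨Nat.pair k n, ?_⟩
    have : Φ y = fun f : Cp X => ∑ x ∈ (β y).support, β y x * (f : X → ℝ) x := by
      funext f
      exact hβ y f
    rw [mem_preimage, Nat.unpair_pair, this]
    exact hkn

end Real

end H490LC
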